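import Mathlib

/-!
# A 3-critical graph on 32 vertices with `γ = 3 < i = 4`

Vertices are pairs `(r, c)` with a row `r < 4` and a column `c < 8`; the columns are grouped into the
four blocks `c / 2`. Distinct vertices in different columns are adjacent if they lie in different
rows; in the row `r` the columns `c, d` are adjacent when the xor of their blocks is `(r + 1) % 4`.
(So the rows induce `2 K_{2,2}`, `2 K_{2,2}`, `2 K_{2,2}` and `4 K_2`, and these four graphs
decompose the complete graph on the eight columns.)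
-/

set_option autoImplicit false

open Finset

namespace Pool.Agent.Results.MP_5ead0a_co.ThirtyTwoVertices

variable {V : Type*}

/-- `D` is dominating: every vertex outside `D` has a neighbour in `D`. -/
def IsDominating (G : SimpleGraph V) (D : Finset V) : Prop := ∀ v, v ∉ D → ∃ d ∈ D, G.Adj v d

/-- `D` is independent. -/
def IsIndependent (G : SimpleGraph V) (D : Finset V) : Prop := ∀ u ∈ D, ∀ v ∈ D, ¬ G.Adj u v

/-- The domination number. -/
noncomputable def domNumber (G : SimpleGraph V) : ℕ :=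
  sInf {k | ∃ D : Finset V, IsDominating G D ∧ D.card = k}

/-- The independent domination number. -/
noncomputable def indDomNumber (G : SimpleGraph V) : ℕ :=
  sInf {k | ∃ D : Finset V, IsDominating G D ∧ IsIndependent G D ∧ D.card = k}

/-- The graph `G + uv`. -/
def addEdge (G : SimpleGraph V) (u v : V) : SimpleGraph V := G ⊔ SimpleGraph.edge u v

/-- `G` is 3-critical: `γ(G) = 3` and `γ(G + uv) < 3` for all distinct non-adjacent `u, v`. -/
def IsThreeCritical (G : SimpleGraph V) : Prop :=
  domNumber G = 3 ∧ ∀ u v : V, u ≠ v → ¬ G.Adj u v → domNumber (addEdge G u v) < 3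

/-- Adjacency of the example, as a Boolean function of rows and columns. -/
def adjB (r : Fin 4) (c : Fin 8) (s : Fin 4) (d : Fin 8) : Bool :=
  !(c.val == d.val) && (!(r.val == s.val) ||
    (Nat.xor (c.val / 2) (d.val / 2) == (r.val + 1) % 4))

lemma adjB_symm : ∀ (r : Fin 4) (c : Fin 8) (s : Fin 4) (d : Fin 8),
    adjB r c s d = true → adjB s d r c = true := by decide +kernel

lemma adjB_irrefl : ∀ (r : Fin 4) (c : Fin 8), adjB r c r c = false := by decide +kernel

/-- The example. -/
def G : SimpleGraph (Fin 4 × Fin 8) where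
  Adj x y := adjB x.1 x.2 y.1 y.2 = true
  symm := ⟨fun x y h => adjB_symm x.1 x.2 y.1 y.2 h⟩
  loopless := ⟨fun x h => by
    have := adjB_irrefl x.1 x.2
    rw [h] at this
    exact absurd this (by decide)⟩

/-- The vertex `(r, c)` dominates `(s, d)`. -/
def dB (r : Fin 4) (c : Fin 8) (s : Fin 4) (d : Fin 8) : Bool :=
  ((r.val == s.val) && (c.val == d.val)) || adjB r c s d

/-- No two vertices dominate the graph. -/
lemma noPair : ∀ (r : Fin 4) (c : Fin 8) (s : Fin 4) (d : Fin 8), ∃ (t : Fin 4) (e : Fin 8),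
    dB r c t e = false ∧ dB s d t e = false := by decide +kernel

/-- No three independent vertices dominate the graph. -/
lemma noTriple : ∀ (r : Fin 4) (c : Fin 8) (s : Fin 4) (d : Fin 8), dB r c s d = false →
    ∀ (t : Fin 4) (e : Fin 8), dB r c t e = false → dB s d t e = false →
    ∃ (p : Fin 4) (q : Fin 8), dB r c p q = false ∧ dB s d p q = false ∧ dB t e p q = false := by
  decide +kernel

/-- For non-adjacent `u, v` some vertex together with `u` (or with `v`) dominates everything except
`v` (respectively `u`). -/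
lemma crit : ∀ (r : Fin 4) (c : Fin 8) (s : Fin 4) (d : Fin 8), dB r c s d = false →
    ∃ (p : Fin 4) (q : Fin 8),
      (∀ (t : Fin 4) (e : Fin 8), (dB r c t e || dB p q t e ||
        ((s.val == t.val) && (d.val == e.val))) = true) := by
  decide +kernel


lemma dB_iff (x y : Fin 4 × Fin 8) : dB x.1 x.2 y.1 y.2 = true ↔ x = y ∨ G.Adj x y := by
  unfold dB
  rw [Bool.or_eq_true, Bool.and_eq_true, beq_iff_eq, beq_iff_eq]
  constructor
  · rintro (⟨h1, h2⟩ | h)
    · left; exact Prod.ext (Fin.ext h1) (Fin.ext h2)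
    · right; exact h
  · rintro (h | h)
    · left; rw [h]; exact ⟨rfl, rfl⟩
    · right; exact h

lemma dB_false (x y : Fin 4 × Fin 8) : dB x.1 x.2 y.1 y.2 = false ↔ x ≠ y ∧ ¬ G.Adj x y := by
  rw [← Bool.not_eq_true, dB_iff, not_or]

lemma cover_of_card_le_two (D : Finset (Fin 4 × Fin 8)) (h : D.card ≤ 2) :
    ∃ x y, D ⊆ {x, y} := by
  rcases Nat.lt_or_ge D.card 2 with h1 | h1
  · rcases Nat.lt_or_ge D.card 1 with h2 | h2
    · refine ⟨(0, 0), (0, 0), ?_⟩
      have h3 : D = ∅ := Finset.card_eq_zero.mp (by omega)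
      rw [h3]
      exact Finset.empty_subset _
    · obtain ⟨x, hx⟩ := Finset.card_eq_one.mp (show D.card = 1 by omega)
      exact ⟨x, x, by rw [hx]; simp⟩
  · obtain ⟨x, y, _, hxy⟩ := Finset.card_eq_two.mp (show D.card = 2 by omega)
    exact ⟨x, y, by rw [hxy]⟩

lemma not_dom_of_card_le_two (D : Finset (Fin 4 × Fin 8)) (h : D.card ≤ 2) :
    ¬ IsDominating G D := by
  intro hD
  obtain ⟨x, y, hxy⟩ := cover_of_card_le_two D h
  obtain ⟨t, e, h1, h2⟩ := noPair x.1 x.2 y.1 y.2
  have h1' := (dB_false x (t, e)).mp h1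
  have h2' := (dB_false y (t, e)).mp h2
  have hnot : (t, e) ∉ D := by
    intro hmem
    have := hxy hmem
    rw [mem_insert, mem_singleton] at this
    rcases this with h | h
    · exact h1'.1 h.symm
    · exact h2'.1 h.symm
  obtain ⟨d, hd, hadj⟩ := hD _ hnot
  have := hxy hd
  rw [mem_insert, mem_singleton] at this
  rcases this with h | h
  · rw [h] at hadj; exact h1'.2 hadj.symm
  · rw [h] at hadj; exact h2'.2 hadj.symm

lemma not_dom_of_card_three (D : Finset (Fin 4 × Fin 8)) (h : D.card = 3)
    (hind : IsIndependent G D) : ¬ IsDominating G D := by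
  intro hD
  obtain ⟨x, y, z, hxy, hxz, hyz, rfl⟩ := Finset.card_eq_three.mp h
  have m1 : x ∈ ({x, y, z} : Finset (Fin 4 × Fin 8)) := by simp
  have m2 : y ∈ ({x, y, z} : Finset (Fin 4 × Fin 8)) := by simp
  have m3 : z ∈ ({x, y, z} : Finset (Fin 4 × Fin 8)) := by simp
  obtain ⟨p, q, a1, a2, a3⟩ := noTriple x.1 x.2 y.1 y.2 ((dB_false x y).mpr ⟨hxy, hind x m1 y m2⟩)
    z.1 z.2 ((dB_false x z).mpr ⟨hxz, hind x m1 z m3⟩) ((dB_false y z).mpr ⟨hyz, hind y m2 z m3⟩)
  have a1' := (dB_false x (p, q)).mp a1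
  have a2' := (dB_false y (p, q)).mp a2
  have a3' := (dB_false z (p, q)).mp a3
  have hnot : (p, q) ∉ ({x, y, z} : Finset (Fin 4 × Fin 8)) := by
    intro hmem
    simp only [mem_insert, mem_singleton] at hmem
    rcases hmem with h | h | h
    · exact a1'.1 h.symm
    · exact a2'.1 h.symm
    · exact a3'.1 h.symm
  obtain ⟨d, hd, hadj⟩ := hD _ hnot
  simp only [mem_insert, mem_singleton] at hd
  rcases hd with h | h | h
  · rw [h] at hadj; exact a1'.2 hadj.symm
  · rw [h] at hadj; exact a2'.2 hadj.symm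
  · rw [h] at hadj; exact a3'.2 hadj.symm

lemma exists_three : ∃ (r : Fin 4) (c : Fin 8) (s : Fin 4) (d : Fin 8),
    ∀ (p : Fin 4) (q : Fin 8), (dB 0 0 p q || dB r c p q || dB s d p q) = true := by
  decide +kernel

lemma domNumber_le_three : domNumber G ≤ 3 := by
  obtain ⟨r, c, s, d, h⟩ := exists_three
  have hdom : IsDominating G {((0 : Fin 4), (0 : Fin 8)), (r, c), (s, d)} := by
    intro v hv
    have hv' := h v.1 v.2
    rw [Bool.or_eq_true, Bool.or_eq_true] at hv'
    simp only [mem_insert, mem_singleton, not_or] at hv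
    rcases hv' with (h1 | h1) | h1
    · have := (dB_iff ((0 : Fin 4), (0 : Fin 8)) v).mp h1
      rcases this with h2 | h2
      · exact absurd h2.symm hv.1
      · exact ⟨_, by simp, h2.symm⟩
    · have := (dB_iff (r, c) v).mp h1
      rcases this with h2 | h2
      · exact absurd h2.symm hv.2.1
      · exact ⟨_, by simp, h2.symm⟩
    · have := (dB_iff (s, d) v).mp h1
      rcases this with h2 | h2
      · exact absurd h2.symm hv.2.2
      · exact ⟨_, by simp, h2.symm⟩
  refine (Nat.sInf_le (s := {k | ∃ D : Finset (Fin 4 × Fin 8), IsDominating G D ∧ D.card = k})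
    ⟨_, hdom, rfl⟩).trans ?_
  exact Finset.card_le_three

lemma dom_nonempty (H : SimpleGraph (Fin 4 × Fin 8)) :
    {k | ∃ D : Finset (Fin 4 × Fin 8), IsDominating H D ∧ D.card = k}.Nonempty :=
  ⟨_, univ, fun v hv => absurd (mem_univ v) hv, rfl⟩

lemma domNumber_eq_three : domNumber G = 3 := by
  apply le_antisymm domNumber_le_three
  apply le_csInf (dom_nonempty G)
  rintro k ⟨D, hD, rfl⟩
  by_contra hlt
  exact not_dom_of_card_le_two D (by omega) hD

/-- A maximal independent set: column-wise choice. -/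
lemma exists_ind : ∃ D : Finset (Fin 4 × Fin 8), IsDominating G D ∧ IsIndependent G D := by
  classical
  obtain ⟨D, hD, hmax⟩ := (Finset.univ.filter (fun D : Finset (Fin 4 × Fin 8) =>
    IsIndependent G D)).exists_max_image (fun D => D.card) ⟨∅, by
      rw [mem_filter]; exact ⟨mem_univ _, fun u hu => absurd hu (Finset.notMem_empty u)⟩⟩
  rw [mem_filter] at hD
  refine ⟨D, ?_, hD.2⟩
  intro v hv
  by_contra hno
  push Not at hno
  have hins : IsIndependent G (insert v D) := by
    intro a ha b hb
    rw [mem_insert] at ha hb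
    rcases ha with rfl | ha <;> rcases hb with rfl | hb
    · exact G.loopless.irrefl _
    · exact hno b hb
    · exact fun h => hno a ha h.symm
    · exact hD.2 a ha b hb
  have h1 := hmax (insert v D) (by rw [mem_filter]; exact ⟨mem_univ _, hins⟩)
  rw [card_insert_of_notMem hv] at h1
  omega

lemma four_le_indDomNumber : 4 ≤ indDomNumber G := by
  obtain ⟨D, h1, h2⟩ := exists_ind
  have hne : {k | ∃ D : Finset (Fin 4 × Fin 8), IsDominating G D ∧ IsIndependent G D ∧
      D.card = k}.Nonempty := ⟨_, D, h1, h2, rfl⟩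
  apply le_csInf hne
  rintro k ⟨D, hD, hind, rfl⟩
  by_contra hlt
  rcases Nat.lt_or_ge D.card 3 with h | h
  · exact not_dom_of_card_le_two D (by omega) hD
  · exact not_dom_of_card_three D (by omega) hind hD

lemma critical (u v : Fin 4 × Fin 8) (huv : u ≠ v) (hadj : ¬ G.Adj u v) :
    domNumber (addEdge G u v) < 3 := by
  obtain ⟨p, q, h⟩ := crit u.1 u.2 v.1 v.2 ((dB_false u v).mpr ⟨huv, hadj⟩)
  have hdom : IsDominating (addEdge G u v) {u, (p, q)} := by
    intro w hw
    simp only [mem_insert, mem_singleton, not_or] at hw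
    have hw' := h w.1 w.2
    rw [Bool.or_eq_true, Bool.or_eq_true] at hw'
    rcases hw' with (h1 | h1) | h1
    · rcases (dB_iff u w).mp h1 with h2 | h2
      · exact absurd h2.symm hw.1
      · exact ⟨u, by simp, Or.inl h2.symm⟩
    · rcases (dB_iff (p, q) w).mp h1 with h2 | h2
      · exact absurd h2.symm hw.2
      · exact ⟨(p, q), by simp, Or.inl h2.symm⟩
    · rw [Bool.and_eq_true, beq_iff_eq, beq_iff_eq] at h1
      have hvw : v = w := Prod.ext (Fin.ext h1.1) (Fin.ext h1.2)
      subst hvw
      refine ⟨u, by simp, Or.inr ?_⟩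
      rw [SimpleGraph.edge_adj]
      exact ⟨Or.inr ⟨rfl, rfl⟩, huv.symm⟩
  have h2 : domNumber (addEdge G u v) ≤ ({u, (p, q)} : Finset (Fin 4 × Fin 8)).card :=
    Nat.sInf_le (s := {k | ∃ D : Finset (Fin 4 × Fin 8),
      IsDominating (addEdge G u v) D ∧ D.card = k}) ⟨_, hdom, rfl⟩
  have h3 := Finset.card_le_two (a := u) (b := (p, q))
  omega

lemma common : ∀ (r : Fin 4) (c : Fin 8) (s : Fin 4) (d : Fin 8), ∃ (p : Fin 4) (q : Fin 8),
    (adjB r c p q && adjB p q s d) = true := by decide +kernel

lemma conn : G.Connected := by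
  refine ⟨?_⟩
  intro x y
  obtain ⟨p, q, h⟩ := common x.1 x.2 y.1 y.2
  rw [Bool.and_eq_true] at h
  have h1 : G.Adj x (p, q) := h.1
  have h2 : G.Adj (p, q) y := h.2
  exact h1.reachable.trans h2.reachable

theorem result : ∃ (V : Type) (_ : Fintype V) (G : SimpleGraph V),
    Fintype.card V = 32 ∧ Fintype.card V < 56 ∧ G.Connected ∧ IsThreeCritical G ∧
    domNumber G ≠ indDomNumber G := by
  refine ⟨Fin 4 × Fin 8, inferInstance, G, by simp, by simp, conn,
    ⟨domNumber_eq_three, critical⟩, ?_⟩
  rw [domNumber_eq_three]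
  have := four_le_indDomNumber
  omega

end Pool.Agent.Results.MP_5ead0a_co.ThirtyTwoVertices
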